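import Pool.Agent.Lib.MP_b8a58d_co.Sound

/-!
# The forest

Sixteen vertices; `T₁` is the path `0, 4, 8, 9, ..., 15` rooted at its end `0`, and the three other
trees are the single edges `1 5`, `2 6`, `3 7` rooted at `1`, `2`, `3`.
-/

set_option autoImplicit false

namespace Pool.Agent.Lib.MP_b8a58d_co

/-- the forest -/
def forest : SimpleGraph (Fin 16) :=
  SimpleGraph.fromRel (fun u v => 4 ≤ (v : ℕ) ∧ par v = u)

lemma forest_adj {u v : Fin 16} : forest.Adj u v ↔
    u ≠ v ∧ ((4 ≤ (v : ℕ) ∧ par v = u) ∨ (4 ≤ (u : ℕ) ∧ par u = v)) := by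
  unfold forest
  rw [SimpleGraph.fromRel_adj]

lemma par_lt : ∀ v : Fin 16, 4 ≤ (v : ℕ) → par v < v := by decide

lemma par_adj {v : Fin 16} (hv : 4 ≤ (v : ℕ)) : forest.Adj (par v) v :=
  forest_adj.2 ⟨(par_lt v hv).ne, Or.inl ⟨hv, rfl⟩⟩

lemma eq_par {m x : Fin 16} (h : forest.Adj m x) (hx : x ≤ m) : x = par m := by
  rw [forest_adj] at h
  obtain ⟨hne, ⟨h4, hp⟩ | ⟨h4, hp⟩⟩ := h
  · have := par_lt x h4
    rw [hp] at this
    exact absurd hx (not_le.2 this)
  · exact hp.symm

theorem forest_acyclic : forest.IsAcyclic := by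
  intro v c hc
  obtain ⟨m, hm, hmax⟩ := c.support.toFinset.exists_max_image id
    ⟨v, by simp⟩
  rw [List.mem_toFinset] at hm
  have hc' : (c.rotate m hm).IsCycle := hc.rotate hm
  have h1 : forest.Adj m (c.rotate m hm).snd := (c.rotate m hm).adj_snd hc'.not_nil
  have h2 : forest.Adj (c.rotate m hm).penultimate m :=
    (c.rotate m hm).adj_penultimate hc'.not_nil
  have hle : ∀ x, x ∈ (c.rotate m hm).support → x ≤ m := by
    intro x hx
    rw [SimpleGraph.Walk.mem_support_rotate_iff] at hx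
    exact hmax x (List.mem_toFinset.2 hx)
  have e1 := eq_par h1 (hle _ (SimpleGraph.Walk.getVert_mem_support _ _))
  have e2 := eq_par h2.symm (hle _ (SimpleGraph.Walk.getVert_mem_support _ _))
  exact hc'.snd_ne_penultimate (e1.trans e2.symm)

/-- the index of the root of the tree of a vertex -/
def rt : Fin 16 → Fin 4 := ![0, 1, 2, 3, 0, 1, 2, 3, 0, 0, 0, 0, 0, 0, 0, 0]

/-- the roots -/
def root (i : Fin 4) : Fin 16 := ⟨i, by omega⟩

lemma rt_root : ∀ i : Fin 4, rt (root i) = i := by decide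

lemma rt_par : ∀ v : Fin 16, 4 ≤ (v : ℕ) → rt (par v) = rt v := by decide

lemma eq_root : ∀ v : Fin 16, (v : ℕ) < 4 → v = root (rt v) := by decide

lemma rt_adj {u v : Fin 16} (h : forest.Adj u v) : rt u = rt v := by
  rw [forest_adj] at h
  obtain ⟨-, ⟨h4, rfl⟩ | ⟨h4, rfl⟩⟩ := h
  · exact rt_par v h4
  · exact (rt_par u h4).symm

lemma rt_reachable {u v : Fin 16} (h : forest.Reachable u v) : rt u = rt v := by
  obtain ⟨w⟩ := h
  induction w with
  | nil => rfl
  | cons h _ ih => exact (rt_adj h).trans ih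

lemma reachable_root (v : Fin 16) : forest.Reachable (root (rt v)) v := by
  induction v using WellFoundedLT.induction with
  | ind v ih =>
    by_cases hv : (v : ℕ) < 4
    · rw [← eq_root v hv]
    · have hv' : 4 ≤ (v : ℕ) := by omega
      have h1 := ih (par v) (par_lt v hv')
      rw [rt_par v hv'] at h1
      exact h1.trans (par_adj hv').reachable

end Pool.Agent.Lib.MP_b8a58d_co
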