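import Pool.Agent.Lib.MP_b8a58d_co.Search

/-!
# Geometry of the sixteen points
-/

set_option autoImplicit false

namespace Pool.Agent.Lib.MP_b8a58d_co

/-- the point with index `i` -/
noncomputable def pt (i : ℕ) : EuclideanSpace ℝ (Fin 2) := !₂[(px i : ℝ), (py i : ℝ)]

@[simp] lemma pt_zero (i : ℕ) : pt i 0 = (px i : ℝ) := rfl

@[simp] lemma pt_one (i : ℕ) : pt i 1 = (py i : ℝ) := rfl

lemma div_sub_bounds {p q : ℝ} (h : p * q < 0) : 0 ≤ p / (p - q) ∧ p / (p - q) ≤ 1 := by
  rcases mul_neg_iff.1 h with ⟨hp, hq⟩ | ⟨hp, hq⟩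
  · have h1 : 0 < p - q := by linarith
    exact ⟨by positivity, (div_le_one h1).2 (by linarith)⟩
  · have h1 : p - q < 0 := by linarith
    exact ⟨div_nonneg_of_nonpos hp.le h1.le, (div_le_one_of_neg h1).2 (by linarith)⟩

lemma not_disjoint_of_crossB {i j k l : ℕ} (h : crossB i j k l = true) :
    ¬ Disjoint (segment ℝ (pt i) (pt j)) (segment ℝ (pt k) (pt l)) := by
  unfold crossB at h
  rw [Bool.and_eq_true, decide_eq_true_eq, decide_eq_true_eq] at h
  obtain ⟨h1, h2⟩ := h
  have h1' : (ori i j k : ℝ) * (ori i j l : ℝ) < 0 := by exact_mod_cast h1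
  have h2' : (ori k l i : ℝ) * (ori k l j : ℝ) < 0 := by exact_mod_cast h2
  obtain ⟨a0, a1⟩ := div_sub_bounds h2'
  obtain ⟨b0, b1⟩ := div_sub_bounds h1'
  have hd : (ori k l i : ℝ) - ori k l j ≠ 0 := by
    intro h0
    have h3 : (ori k l i : ℝ) = ori k l j := by linarith
    rw [h3] at h2'
    nlinarith [mul_self_nonneg (ori k l j : ℝ)]
  have hd2 : (ori i j k : ℝ) - ori i j l = -((ori k l i : ℝ) - ori k l j) := by
    unfold ori
    push_cast
    ring
  have hd3 : (ori i j k : ℝ) - ori i j l ≠ 0 := by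
    rw [hd2]
    exact neg_ne_zero.2 hd
  rw [Set.not_disjoint_iff]
  set t : ℝ := (ori k l i : ℝ) / ((ori k l i : ℝ) - ori k l j) with ht
  set u : ℝ := (ori i j k : ℝ) / ((ori i j k : ℝ) - ori i j l) with hu
  refine ⟨(1 - t) • pt i + t • pt j, ⟨1 - t, t, by linarith, a0, by ring, rfl⟩,
    ⟨1 - u, u, by linarith, b0, by ring, ?_⟩⟩
  have e1 : t * ((ori k l i : ℝ) - ori k l j) = ori k l i := by
    rw [ht]; field_simp
  have e2 : u * ((ori k l i : ℝ) - ori k l j) = -ori i j k := by
    have h4 : u * ((ori i j k : ℝ) - ori i j l) = ori i j k := by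
      rw [hu]; field_simp
    rw [hd2] at h4
    linarith
  ext c
  fin_cases c
  · simp only [Fin.zero_eta, Fin.isValue, PiLp.add_apply, PiLp.smul_apply, pt_zero, smul_eq_mul]
    apply mul_left_cancel₀ hd
    have e3 : ((ori k l i : ℝ) - ori k l j) * ((1 - u) * px k + u * px l) =
        ((ori k l i : ℝ) - ori k l j) * px k +
          (u * ((ori k l i : ℝ) - ori k l j)) * (px l - px k) := by ring
    have e4 : ((ori k l i : ℝ) - ori k l j) * ((1 - t) * px i + t * px j) =
        ((ori k l i : ℝ) - ori k l j) * px i +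
          (t * ((ori k l i : ℝ) - ori k l j)) * (px j - px i) := by ring
    rw [e3, e4, e1, e2]
    unfold ori
    push_cast
    ring
  · simp only [Fin.mk_one, Fin.isValue, PiLp.add_apply, PiLp.smul_apply, pt_one, smul_eq_mul]
    apply mul_left_cancel₀ hd
    have e3 : ((ori k l i : ℝ) - ori k l j) * ((1 - u) * py k + u * py l) =
        ((ori k l i : ℝ) - ori k l j) * py k +
          (u * ((ori k l i : ℝ) - ori k l j)) * (py l - py k) := by ring
    have e4 : ((ori k l i : ℝ) - ori k l j) * ((1 - t) * py i + t * py j) =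
        ((ori k l i : ℝ) - ori k l j) * py i +
          (t * ((ori k l i : ℝ) - ori k l j)) * (py j - py i) := by ring
    rw [e3, e4, e1, e2]
    unfold ori
    push_cast
    ring

lemma ori_eq_zero_of_collinear {i j k : ℕ} (h : Collinear ℝ {pt i, pt j, pt k}) :
    ori i j k = 0 := by
  rw [collinear_iff_of_mem (p₀ := pt i) (by simp)] at h
  obtain ⟨v, hv⟩ := h
  obtain ⟨r1, h1⟩ := hv (pt j) (by simp)
  obtain ⟨r2, h2⟩ := hv (pt k) (by simp)
  have a0 : (px j : ℝ) = r1 * v 0 + px i := by
    have := congrArg (fun w : EuclideanSpace ℝ (Fin 2) => w 0) h1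
    simpa using this
  have a1 : (py j : ℝ) = r1 * v 1 + py i := by
    have := congrArg (fun w : EuclideanSpace ℝ (Fin 2) => w 1) h1
    simpa using this
  have b0 : (px k : ℝ) = r2 * v 0 + px i := by
    have := congrArg (fun w : EuclideanSpace ℝ (Fin 2) => w 0) h2
    simpa using this
  have b1 : (py k : ℝ) = r2 * v 1 + py i := by
    have := congrArg (fun w : EuclideanSpace ℝ (Fin 2) => w 1) h2
    simpa using this
  have h3 : (ori i j k : ℝ) = 0 := by
    unfold ori
    push_cast
    rw [a0, a1, b0, b1]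
    ring
  exact_mod_cast h3

/-- no three of the points are collinear -/
def generalB : Bool :=
  allPts.all fun i => allPts.all fun j => allPts.all fun k =>
    (i == j) || (i == k) || (j == k) || !decide (ori i j k = 0)

theorem generalB_eq : generalB = true := by decide +kernel

lemma mem_allPts {i : ℕ} (hi : i < 16) : i ∈ allPts := by
  unfold allPts
  interval_cases i <;> simp

lemma ori_ne_zero {i j k : ℕ} (hi : i < 16) (hj : j < 16) (hk : k < 16) (hij : i ≠ j)
    (hik : i ≠ k) (hjk : j ≠ k) : ori i j k ≠ 0 := by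
  have h := generalB_eq
  unfold generalB at h
  rw [List.all_eq_true] at h
  have h1 := h i (mem_allPts hi)
  rw [List.all_eq_true] at h1
  have h2 := h1 j (mem_allPts hj)
  rw [List.all_eq_true] at h2
  have h3 := h2 k (mem_allPts hk)
  simp only [Bool.or_eq_true, beq_iff_eq, Bool.not_eq_true', decide_eq_false_iff_not] at h3
  rcases h3 with ((h3 | h3) | h3) | h3
  · exact absurd h3 hij
  · exact absurd h3 hik
  · exact absurd h3 hjk
  · exact h3

lemma not_collinear {i j k : ℕ} (hi : i < 16) (hj : j < 16) (hk : k < 16) (hij : i ≠ j)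
    (hik : i ≠ k) (hjk : j ≠ k) : ¬ Collinear ℝ {pt i, pt j, pt k} :=
  fun h => ori_ne_zero hi hj hk hij hik hjk (ori_eq_zero_of_collinear h)

lemma pt_injective {i j : ℕ} (hi : i < 16) (hj : j < 16) (h : pt i = pt j) : i = j := by
  by_contra hij
  obtain ⟨k, hk, hik, hjk⟩ : ∃ k, k < 16 ∧ i ≠ k ∧ j ≠ k := by
    by_cases h0 : i ≠ 0 ∧ j ≠ 0
    · exact ⟨0, by norm_num, h0.1, h0.2⟩
    · by_cases h1 : i ≠ 1 ∧ j ≠ 1
      · exact ⟨1, by norm_num, h1.1, h1.2⟩
      · exact ⟨2, by norm_num, by omega, by omega⟩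
  apply ori_ne_zero hi hj hk hij hik hjk
  have h0 : (px i : ℝ) = px j := by
    have := congrArg (fun w : EuclideanSpace ℝ (Fin 2) => w 0) h
    simpa using this
  have h1 : (py i : ℝ) = py j := by
    have := congrArg (fun w : EuclideanSpace ℝ (Fin 2) => w 1) h
    simpa using this
  have h0' : px i = px j := by exact_mod_cast h0
  have h1' : py i = py j := by exact_mod_cast h1
  unfold ori
  rw [h0', h1']
  ring

lemma crossB_ne {i j k l : ℕ} (h : crossB i j k l = true) :
    i ≠ k ∧ i ≠ l ∧ j ≠ k ∧ j ≠ l := by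
  unfold crossB at h
  rw [Bool.and_eq_true, decide_eq_true_eq, decide_eq_true_eq] at h
  obtain ⟨h1, h2⟩ := h
  refine ⟨?_, ?_, ?_, ?_⟩
  · rintro rfl
    have : ori i j i = 0 := by unfold ori; ring
    rw [this, zero_mul] at h1
    exact lt_irrefl _ h1
  · rintro rfl
    have : ori i j i = 0 := by unfold ori; ring
    rw [this, mul_zero] at h1
    exact lt_irrefl _ h1
  · rintro rfl
    have : ori i j j = 0 := by unfold ori; ring
    rw [this, zero_mul] at h1
    exact lt_irrefl _ h1
  · rintro rfl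
    have : ori i j j = 0 := by unfold ori; ring
    rw [this, mul_zero] at h1
    exact lt_irrefl _ h1

end Pool.Agent.Lib.MP_b8a58d_co
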