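import Pool.Agent.Lib.MP_b8a58d_co.Geom

/-!
# Soundness of the search
-/

set_option autoImplicit false

namespace Pool.Agent.Lib.MP_b8a58d_co

/-- The parent of a vertex; the vertices `0, 1, 2, 3` are the roots. -/
def par : Fin 16 → Fin 16 := ![0, 1, 2, 3, 0, 1, 2, 3, 4, 8, 9, 10, 11, 12, 13, 14]

lemma four_le_par : ∀ v : Fin 16, 8 ≤ (v : ℕ) → 4 ≤ (par v : ℕ) := by decide

lemma mem_blues {x : ℕ} (h4 : 4 ≤ x) (h16 : x < 16) : x ∈ blues := by
  unfold blues
  interval_cases x <;> simp

lemma blues_bounds {x : ℕ} (h : x ∈ blues) : 4 ≤ x ∧ x < 16 := by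
  unfold blues at h
  simp only [List.mem_cons, List.not_mem_nil, or_false] at h
  omega

lemma crossB_of_mask {i j k l : ℕ} (hi : i < 4) (hj : j ∈ blues) (hk : k < 16) (hl : l < 16)
    (h : (mask i j).testBit (16 * k + l) = true) : crossB i j k l = true := by
  have h0 := tableOK_eq
  unfold tableOK at h0
  rw [List.all_eq_true] at h0
  have h1 := h0 i (by interval_cases i <;> simp)
  rw [List.all_eq_true] at h1
  have h2 := h1 j hj
  rw [List.all_eq_true] at h2
  have h3 := h2 k (mem_allPts hk)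
  rw [List.all_eq_true] at h3
  have h4 := h3 l (mem_allPts hl)
  rw [h] at h4
  simpa using h4

lemma rest_testBit (a b c d y : ℕ) (hy : y < 16) : (rest a b c d).testBit y =
    (((((decide (4 ≤ y)) ^^ (decide (a = y))) ^^ (decide (b = y))) ^^ (decide (c = y))) ^^
      (decide (d = y))) := by
  unfold rest
  simp only [Nat.testBit_xor, Nat.one_shiftLeft, Nat.testBit_two_pow]
  have h : Nat.testBit 65520 y = decide (4 ≤ y) := by
    interval_cases y <;> rfl
  rw [h]

lemma row_testBit (B r y : ℕ) (hy : y < 16) : (row B r).testBit y = B.testBit (16 * r + y) := by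
  unfold row
  have h : (65536 : ℕ) = 2 ^ 16 := by norm_num
  rw [h, Nat.testBit_mod_two_pow, Nat.testBit_shiftRight]
  simp [hy]

/-- closedness as a statement on bits -/
lemma closed_step {U B R : ℕ} (h : closedB U B R = true) {r y : ℕ} (hr : r ∈ blues)
    (hy : y < 16) (hR : R.testBit r = true) (hU : U.testBit y = true)
    (hB : B.testBit (16 * r + y) = false) : R.testBit y = true := by
  unfold closedB at h
  rw [List.all_eq_true] at h
  have h1 := h r hr
  rw [hR] at h1
  simp only [Bool.not_true, Bool.false_or, beq_iff_eq] at h1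
  have h2 : ((U &&& (65535 ^^^ row B r)) ||| R).testBit y = R.testBit y := by rw [h1]
  rw [Nat.testBit_or, Nat.testBit_and, Nat.testBit_xor, row_testBit B r y hy, hU, hB] at h2
  have h3 : Nat.testBit 65535 y = true := by
    interval_cases y <;> rfl
  rw [h3] at h2
  simpa using h2.symm

section

variable {s : Fin 16 → Fin 16}

lemma four_le (hs : Function.Injective s) (h0 : ∀ i : Fin 16, (i : ℕ) < 4 → s i = i) {v : Fin 16}
    (hv : 4 ≤ (v : ℕ)) : 4 ≤ (s v : ℕ) := by
  by_contra hlt
  have h1 : s (s v) = s v := h0 (s v) (by omega)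
  have h2 : s v = v := hs h1
  rw [h2] at hlt
  exact hlt hv

/-- the path argument -/
lemma path_false (hs : Function.Injective s) (h0 : ∀ i : Fin 16, (i : ℕ) < 4 → s i = i)
    {U B : ℕ}
    (hU1 : ∀ v : Fin 16, 8 ≤ (v : ℕ) → U.testBit (s v) = true)
    (hU2 : ∀ x, x ∈ blues → U.testBit x = true → ∃ v : Fin 16, 8 ≤ (v : ℕ) ∧ (s v : ℕ) = x)
    (hB : ∀ v : Fin 16, 8 ≤ (v : ℕ) → B.testBit (16 * (s (par v) : ℕ) + (s v : ℕ)) = false)
    {v0 : Fin 16} (hv0 : v0 = 4 ∨ v0 = 8) (hbad : bad U B (s v0) = true) : False := by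
  unfold bad badSet at hbad
  set R := step U B (step U B (1 <<< (s v0 : ℕ))) with hR
  rw [Bool.and_eq_true, Bool.and_eq_true] at hbad
  obtain ⟨⟨hst, hcl⟩, hmiss⟩ := hbad
  have hstep : ∀ v : Fin 16, 8 ≤ (v : ℕ) → R.testBit (s (par v)) = true →
      R.testBit (s v) = true := by
    intro v hv hp
    have hpar : 4 ≤ (par v : ℕ) := four_le_par v hv
    have h4 := four_le hs h0 hpar
    exact closed_step hcl (mem_blues h4 (s (par v)).isLt) (s v).isLt hp (hU1 v hv) (hB v hv)
  have h8 : R.testBit (s 8) = true := by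
    rcases hv0 with rfl | rfl
    · exact hstep 8 (by decide) hst
    · exact hst
  have h9 : R.testBit (s 9) = true := hstep 9 (by decide) h8
  have h10 : R.testBit (s 10) = true := hstep 10 (by decide) h9
  have h11 : R.testBit (s 11) = true := hstep 11 (by decide) h10
  have h12 : R.testBit (s 12) = true := hstep 12 (by decide) h11
  have h13 : R.testBit (s 13) = true := hstep 13 (by decide) h12
  have h14 : R.testBit (s 14) = true := hstep 14 (by decide) h13
  have h15 : R.testBit (s 15) = true := hstep 15 (by decide) h14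
  unfold missingB at hmiss
  rw [List.any_eq_true] at hmiss
  obtain ⟨x, hx, hx2⟩ := hmiss
  rw [Bool.and_eq_true, Bool.not_eq_true'] at hx2
  obtain ⟨v, hv, hvx⟩ := hU2 x hx hx2.1
  have hall : R.testBit (s v) = true := by
    obtain ⟨v, hv16⟩ := v
    simp only at hv
    interval_cases v
    · exact h8
    · exact h9
    · exact h10
    · exact h11
    · exact h12
    · exact h13
    · exact h14
    · exact h15
  rw [hvx, hx2.2] at hall
  exact Bool.false_ne_true hall

/-- There is no placement of the sixteen vertices without crossing. -/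
theorem no_placement (hs : Function.Injective s) (h0 : ∀ i : Fin 16, (i : ℕ) < 4 → s i = i)
    (hcr : ∀ u v : Fin 16, 4 ≤ (u : ℕ) → 4 ≤ (v : ℕ) →
      crossB (s (par u)) (s u) (s (par v)) (s v) = false) : False := by
  have hbl : ∀ v : Fin 16, 4 ≤ (v : ℕ) → (s v : ℕ) ∈ blues := fun v hv =>
    mem_blues (four_le hs h0 hv) (s v).isLt
  have hne : ∀ u v : Fin 16, u ≠ v → (s v : ℕ) ≠ (s u : ℕ) := by
    intro u v huv h
    exact huv (hs (Fin.ext h)).symm
  have s0 : (s 0 : ℕ) = 0 := by rw [h0 0 (by decide)]; rfl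
  have s1 : (s 1 : ℕ) = 1 := by rw [h0 1 (by decide)]; rfl
  have s2 : (s 2 : ℕ) = 2 := by rw [h0 2 (by decide)]; rfl
  have s3 : (s 3 : ℕ) = 3 := by rw [h0 3 (by decide)]; rfl
  -- masks of the four segments at the inner points
  have hm0 : ∀ v : Fin 16, 4 ≤ (v : ℕ) →
      (mask 0 (s 4)).testBit (16 * (s (par v) : ℕ) + (s v : ℕ)) = false := by
    intro v hv
    by_contra hb
    rw [Bool.not_eq_false] at hb
    have h1 := crossB_of_mask (by norm_num) (hbl 4 (by decide)) (s (par v)).isLt (s v).isLt hb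
    have h2 := hcr 4 v (by decide) hv
    have h3 : par 4 = 0 := rfl
    rw [h3, s0, h1] at h2
    exact Bool.false_ne_true h2.symm
  have hm1 : ∀ v : Fin 16, 4 ≤ (v : ℕ) →
      (mask 1 (s 5)).testBit (16 * (s (par v) : ℕ) + (s v : ℕ)) = false := by
    intro v hv
    by_contra hb
    rw [Bool.not_eq_false] at hb
    have h1 := crossB_of_mask (by norm_num) (hbl 5 (by decide)) (s (par v)).isLt (s v).isLt hb
    have h2 := hcr 5 v (by decide) hv
    have h3 : par 5 = 1 := rfl
    rw [h3, s1, h1] at h2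
    exact Bool.false_ne_true h2.symm
  have hm2 : ∀ v : Fin 16, 4 ≤ (v : ℕ) →
      (mask 2 (s 6)).testBit (16 * (s (par v) : ℕ) + (s v : ℕ)) = false := by
    intro v hv
    by_contra hb
    rw [Bool.not_eq_false] at hb
    have h1 := crossB_of_mask (by norm_num) (hbl 6 (by decide)) (s (par v)).isLt (s v).isLt hb
    have h2 := hcr 6 v (by decide) hv
    have h3 : par 6 = 2 := rfl
    rw [h3, s2, h1] at h2
    exact Bool.false_ne_true h2.symm
  have hm3 : ∀ v : Fin 16, 4 ≤ (v : ℕ) →
      (mask 3 (s 7)).testBit (16 * (s (par v) : ℕ) + (s v : ℕ)) = false := by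
    intro v hv
    by_contra hb
    rw [Bool.not_eq_false] at hb
    have h1 := crossB_of_mask (by norm_num) (hbl 7 (by decide)) (s (par v)).isLt (s v).isLt hb
    have h2 := hcr 7 v (by decide) hv
    have h3 : par 7 = 3 := rfl
    rw [h3, s3, h1] at h2
    exact Bool.false_ne_true h2.symm
  have hc := check_eq
  unfold check at hc
  rw [List.all_eq_true] at hc
  have hc1 := hc (s 4) (hbl 4 (by decide))
  rw [List.all_eq_true] at hc1
  have hc2 := hc1 (s 5) (hbl 5 (by decide))
  have e1 : ((s 5 : ℕ) == (s 4 : ℕ)) = false := beq_false_of_ne (hne 4 5 (by decide))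
  have e2 : (mask 0 (s 4)).testBit (16 + (s 5 : ℕ)) = false := by
    have h := hm0 5 (by decide)
    have h3 : par 5 = 1 := rfl
    rw [h3, s1] at h
    exact h
  rw [e1, e2, Bool.false_or, Bool.false_or, List.all_eq_true] at hc2
  have hc3 := hc2 (s 6) (hbl 6 (by decide))
  have e3 : ((s 6 : ℕ) == (s 4 : ℕ)) = false := beq_false_of_ne (hne 4 6 (by decide))
  have e4 : ((s 6 : ℕ) == (s 5 : ℕ)) = false := beq_false_of_ne (hne 5 6 (by decide))
  have e5 : (mask 0 (s 4) ||| mask 1 (s 5)).testBit (32 + (s 6 : ℕ)) = false := by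
    have ha := hm0 6 (by decide)
    have hb := hm1 6 (by decide)
    have h3 : par 6 = 2 := rfl
    rw [h3, s2] at ha hb
    rw [Nat.testBit_or, Bool.or_eq_false_iff]
    exact ⟨ha, hb⟩
  rw [e3, e4, e5, Bool.false_or, Bool.false_or, Bool.false_or, List.all_eq_true] at hc3
  have hc4 := hc3 (s 7) (hbl 7 (by decide))
  have e6 : ((s 7 : ℕ) == (s 4 : ℕ)) = false := beq_false_of_ne (hne 4 7 (by decide))
  have e7 : ((s 7 : ℕ) == (s 5 : ℕ)) = false := beq_false_of_ne (hne 5 7 (by decide))
  have e8 : ((s 7 : ℕ) == (s 6 : ℕ)) = false := beq_false_of_ne (hne 6 7 (by decide))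
  have e9 : (mask 0 (s 4) ||| mask 1 (s 5) ||| mask 2 (s 6)).testBit (48 + (s 7 : ℕ)) = false := by
    have ha := hm0 7 (by decide)
    have hb := hm1 7 (by decide)
    have hc := hm2 7 (by decide)
    have h3 : par 7 = 3 := rfl
    rw [h3, s3] at ha hb hc
    rw [Nat.testBit_or, Nat.testBit_or, Bool.or_eq_false_iff, Bool.or_eq_false_iff]
    exact ⟨⟨ha, hb⟩, hc⟩
  rw [e6, e7, e8, e9, Bool.false_or, Bool.false_or, Bool.false_or, Bool.false_or] at hc4
  set U := rest (s 4) (s 5) (s 6) (s 7) with hUdef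
  set B := mask 0 (s 4) ||| mask 1 (s 5) ||| mask 2 (s 6) ||| mask 3 (s 7) with hBdef
  have hB : ∀ v : Fin 16, 4 ≤ (v : ℕ) → B.testBit (16 * (s (par v) : ℕ) + (s v : ℕ)) = false := by
    intro v hv
    rw [hBdef, Nat.testBit_or, Nat.testBit_or, Nat.testBit_or, hm0 v hv, hm1 v hv, hm2 v hv,
      hm3 v hv]
    rfl
  have hU1 : ∀ v : Fin 16, 8 ≤ (v : ℕ) → U.testBit (s v) = true := by
    intro v hv
    rw [hUdef, rest_testBit _ _ _ _ _ (s v).isLt]
    have h4 : 4 ≤ (s v : ℕ) := four_le hs h0 (by omega)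
    have a4 : (s 4 : ℕ) ≠ (s v : ℕ) := hne v 4 (by rintro rfl; exact absurd hv (by decide))
    have a5 : (s 5 : ℕ) ≠ (s v : ℕ) := hne v 5 (by rintro rfl; exact absurd hv (by decide))
    have a6 : (s 6 : ℕ) ≠ (s v : ℕ) := hne v 6 (by rintro rfl; exact absurd hv (by decide))
    have a7 : (s 7 : ℕ) ≠ (s v : ℕ) := hne v 7 (by rintro rfl; exact absurd hv (by decide))
    simp [h4, a4, a5, a6, a7]
  have hU2 : ∀ x, x ∈ blues → U.testBit x = true →
      ∃ v : Fin 16, 8 ≤ (v : ℕ) ∧ (s v : ℕ) = x := by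
    intro x hx hxU
    obtain ⟨hx4, hx16⟩ := blues_bounds hx
    have hsurj : Function.Surjective s := Finite.surjective_of_injective hs
    obtain ⟨v, hv⟩ := hsurj ⟨x, hx16⟩
    have hvx : (s v : ℕ) = x := by rw [hv]
    refine ⟨v, ?_, hvx⟩
    by_contra hlt
    rw [hUdef, rest_testBit _ _ _ _ _ hx16] at hxU
    have b54 := hne 4 5 (by decide)
    have b64 := hne 4 6 (by decide)
    have b74 := hne 4 7 (by decide)
    have b65 := hne 5 6 (by decide)
    have b75 := hne 5 7 (by decide)
    have b76 := hne 6 7 (by decide)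
    by_cases hv4 : (v : ℕ) < 4
    · have h1 := h0 v hv4
      rw [h1] at hvx
      omega
    · have hcases : v = 4 ∨ v = 5 ∨ v = 6 ∨ v = 7 := by
        obtain ⟨v, hv16⟩ := v
        simp only [Fin.ext_iff] at *
        change v = 4 ∨ v = 5 ∨ v = 6 ∨ v = 7
        omega
      subst hvx
      rcases hcases with rfl | rfl | rfl | rfl
      · simp [hx4, b54, b64, b74] at hxU
      · simp [hx4, b54.symm, b65, b75] at hxU
      · simp [hx4, b64.symm, b65.symm, b76] at hxU
      · simp [hx4, b74.symm, b75.symm, b76.symm] at hxU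
  unfold check4 at hc4
  rw [Bool.or_eq_true] at hc4
  rcases hc4 with h | h
  · exact path_false hs h0 hU1 hU2 (fun v hv => hB v (by omega)) (Or.inl rfl) h
  · rw [List.all_eq_true] at h
    have h1 := h (s 8) (hbl 8 (by decide))
    have f1 : U.testBit (s 8) = true := hU1 8 (by decide)
    have f2 : B.testBit (16 * (s 4 : ℕ) + (s 8 : ℕ)) = false := hB 8 (by decide)
    rw [f1, f2] at h1
    simp only [Bool.not_true, Bool.false_or] at h1
    exact path_false hs h0 hU1 hU2 (fun v hv => hB v (by omega)) (Or.inr rfl) h1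

end

end Pool.Agent.Lib.MP_b8a58d_co
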